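import Mathlib
import Pool.Agent.Q92.Domin
import Pool.Agent.Q92.BaryFormula

/-!
# Affine Baire-one maps into Banach spaces with the approximation property

The barycentric formula and the domination of functionals by measures are taken from the modules
`Pool.Agent.Q92.BaryFormula` and `Pool.Agent.Q92.Domin` (helper92), the scalar step and the Mazur
step are adapted from the hand-in `MP_8da836_an.BallBAP` of the same seat.
-/

set_option autoImplicit false
set_option linter.unusedSectionVars false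

namespace Pool.Agent.Results.MP_04557e_an.APSuffices

open MeasureTheory Filter Topology Set Q92.Bary Q92.Domin
open scoped Pointwise

section Defs

variable {V : Type*} [AddCommGroup V] [Module ℝ V] [TopologicalSpace V]
variable {E : Type*} [NormedAddCommGroup E] [NormedSpace ℝ E]

/-- `f : X → E` is affine -/
def IsAffine {X : Set V} (f : X → E) : Prop :=
  ∀ x y z : X, ∀ t : ℝ, 0 ≤ t → t ≤ 1 → (z : V) = t • (x : V) + (1 - t) • (y : V) →
    f z = t • f x + (1 - t) • f y

/-- maps `X → E` of the first Baire class -/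
def C1 (X : Set V) (E : Type*) [NormedAddCommGroup E] : Set (X → E) :=
  {f | ∃ g : ℕ → X → E, (∀ n, Continuous (g n)) ∧ ∀ x, Tendsto (fun n => g n x) atTop (𝓝 (f x))}

/-- maps `X → E` which are pointwise limits of continuous affine maps -/
def A1 (X : Set V) (E : Type*) [NormedAddCommGroup E] [NormedSpace ℝ E] : Set (X → E) :=
  {f | ∃ g : ℕ → X → E, (∀ n, Continuous (g n)) ∧ (∀ n, IsAffine (g n)) ∧
    ∀ x, Tendsto (fun n => g n x) atTop (𝓝 (f x))}

end Defs

/-- the approximation property -/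
def AP (𝕜 E : Type*) [NontriviallyNormedField 𝕜] [NormedAddCommGroup E] [NormedSpace 𝕜 E] :
    Prop :=
  ∀ K : Set E, IsCompact K → ∀ ε : ℝ, 0 < ε →
    ∃ T : E →L[𝕜] E, FiniteDimensional 𝕜 (LinearMap.range T.toLinearMap) ∧
      ∀ x ∈ K, ‖T x - x‖ < ε

section Main

variable {V : Type*} [AddCommGroup V] [Module ℝ V] [TopologicalSpace V]
  [IsTopologicalAddGroup V] [ContinuousSMul ℝ V] [LocallyConvexSpace ℝ V] [T2Space V]
variable {X : Set V}
variable {E : Type*} [NormedAddCommGroup E] [NormedSpace ℝ E]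

lemma scalar_zero [CompactSpace X] (hX : Convex ℝ X) (L : C(X, ℝ) →L[ℝ] ℝ)
    (hL : ∀ a : C(X, ℝ), AffOn (fun x => a x) → L a = 0) {f : X → ℝ} (hf : AffOn f)
    {u : ℕ → C(X, ℝ)} {M : ℝ} (hu : ∀ n x, |u n x| ≤ M)
    (hlim : ∀ x, Tendsto (fun n => u n x) atTop (𝓝 (f x))) :
    Tendsto (fun n => L (u n)) atTop (𝓝 0) := by
  let _ : MeasurableSpace X := borel X
  have _ : BorelSpace X := ⟨rfl⟩
  obtain ⟨μ, ν, ⟨hμ1, hμ2⟩, ⟨hν1, hν2⟩, hμν⟩ := exists_pair L
  have heq : ∀ a : C(X, ℝ), AffOn (fun x => a x) → ∫ x, a x ∂μ = ∫ x, a x ∂ν := by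
    intro a ha
    have := hμν a
    rw [hL a ha] at this
    linarith
  have hmass : μ.real univ = ν.real univ := by
    have := heq (ContinuousMap.const X 1) (fun x y z t _ _ _ => by simp)
    simpa using this
  have hell : ∀ ℓ : StrongDual ℝ V, ∫ x : X, ℓ x ∂μ = ∫ x : X, ℓ x ∂ν := by
    intro ℓ
    exact heq ⟨fun x : X => ℓ (x : V), ℓ.continuous.comp continuous_subtype_val⟩
      (fun x y z t _ _ hz => by
        change ℓ (z : V) = t • ℓ (x : V) + (1 - t) • ℓ (y : V)
        rw [hz, map_add, map_smul, map_smul])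
  have hFv : Fv f μ = Fv f ν := by
    rcases eq_or_ne μ 0 with h0 | h0
    · have h1 : ν = 0 := by
        by_contra h
        have h2 := real_pos_of_ne h
        rw [← hmass, h0] at h2
        simp at h2
      rw [h0, h1]
    · obtain ⟨r, hr⟩ := exists_isBar hX μ h0
      have hr' : IsBar ν r := by
        intro ℓ
        rw [← hmass, hr ℓ, hell ℓ]
      rw [Fv_eq f hr, Fv_eq f hr', hmass]
  rw [bary_eq hX μ hf hu hlim, bary_eq hX ν hf hu hlim] at hFv
  have hconv : ∀ κ : Measure X, IsFiniteMeasure κ →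
      Tendsto (fun n => ∫ x, u n x ∂κ) atTop (𝓝 (∫ x, f x ∂κ)) := by
    intro κ hκ
    apply tendsto_integral_of_dominated_convergence (fun _ => M)
    · intro n
      exact (u n).continuous.measurable.aestronglyMeasurable
    · exact integrable_const _
    · exact fun n => Eventually.of_forall fun x => by rw [Real.norm_eq_abs]; exact hu n x
    · exact Eventually.of_forall hlim
  have h1 := (hconv μ hμ1).sub (hconv ν hν1)
  rw [hFv, sub_self] at h1
  have h2 := h1.div_const 2
  rw [zero_div] at h2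
  refine h2.congr fun n => ?_
  rw [← hμν (u n)]
  ring


/-- the key to the use of the approximation property: the error of an operator which is close to
the identity on a suitable compact set is integrable, uniformly in the operator -/
lemma exists_compact [CompactSpace X] [MeasurableSpace X] [BorelSpace X] [CompleteSpace E]
    (ν : Measure X) [IsFiniteMeasure ν] {f : X → E} {h : ℕ → C(X, E)}
    (hfn : ∀ x, ‖f x‖ ≤ 1)
    (hlim : ∀ x, Tendsto (fun n => h n x) atTop (𝓝 (f x))) :
    ∃ (K : Set E) (W : ℝ), IsCompact K ∧ 0 < W ∧ ∀ (T : E →L[ℝ] E) (ε : ℝ), 0 < ε →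
      (∀ y ∈ K, ‖T y - y‖ ≤ ε) →
        ∫⁻ x, ENNReal.ofReal ‖f x - T (f x)‖ ∂ν ≤ ENNReal.ofReal (ε * W) := by
  -- Egorov
  have hmeas : ∀ n, Measurable fun x : X => edist (h n x) (f x) := by
    intro n
    apply measurable_of_tendsto_metrizable (f := fun k => fun x : X => edist (h n x) (h k x))
    · intro k
      exact ((h n).continuous.edist (h k).continuous).measurable
    · rw [tendsto_pi_nhds]
      intro x
      exact Tendsto.edist tendsto_const_nhds (hlim x)
  have hE : ∀ j : ℕ, ∃ t : Set X, MeasurableSet t ∧ ν t ≤ ENNReal.ofReal ((1 / 4) ^ j) ∧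
      TendstoUniformlyOn (fun n x => h n x) f atTop tᶜ := fun j =>
    tendstoUniformlyOn_of_ae_tendsto_of_measurable_edist' hmeas (Eventually.of_forall hlim)
      (by positivity)
  choose t htm htν htu using hE
  -- the compact sets
  have htb : ∀ j, TotallyBounded (f '' (t j)ᶜ) := by
    intro j
    rw [Metric.totallyBounded_iff]
    intro ε hε
    have h1 := (Metric.tendstoUniformlyOn_iff.mp (htu j)) (ε / 2) (by positivity)
    obtain ⟨n, hn⟩ := h1.exists
    obtain ⟨s, hs, hcov⟩ := Metric.totallyBounded_iff.mp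
      (isCompact_range (h n).continuous).totallyBounded (ε / 2) (by positivity)
    refine ⟨s, hs, ?_⟩
    rintro _ ⟨x, hx, rfl⟩
    obtain ⟨y, hy, hxy⟩ := mem_iUnion₂.mp (hcov (mem_range_self x))
    apply mem_iUnion₂.mpr
    refine ⟨y, hy, ?_⟩
    rw [Metric.mem_ball] at hxy ⊢
    have h2 := hn x hx
    have h3 := dist_triangle (f x) (h n x) y
    linarith
  set Kj : ℕ → Set E := fun j => closure (f '' (t j)ᶜ) with hKj
  have hKc : ∀ j, IsCompact (Kj j) := fun j =>
    isCompact_iff_totallyBounded_isComplete.mpr ⟨(htb j).closure, isClosed_closure.isComplete⟩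
  have hKb : ∀ j, ∀ y ∈ Kj j, ‖y‖ ≤ 1 := by
    intro j y hy
    have h1 : Kj j ⊆ Metric.closedBall 0 1 := by
      apply closure_minimal _ Metric.isClosed_closedBall
      rintro _ ⟨x, _, rfl⟩
      simpa using hfn x
    simpa using h1 hy
  set K : Set E := {0} ∪ ⋃ j, ((1 / 2 : ℝ) ^ j • Kj j) with hK
  have hKcomp : IsCompact K := by
    rw [isCompact_iff_totallyBounded_isComplete]
    have hKclosed : IsClosed K := by
      -- a point outside has a neighbourhood meeting finitely many pieces
      rw [← isOpen_compl_iff, isOpen_iff_mem_nhds]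
      intro y hy
      have hy0 : y ≠ 0 := fun h0 => hy (Or.inl h0)
      have hpos : 0 < ‖y‖ / 2 := by positivity
      obtain ⟨N, hN⟩ := exists_pow_lt_of_lt_one hpos (by norm_num : (1 / 2 : ℝ) < 1)
      have hcl : IsClosed (⋃ j ∈ Finset.range N, ((1 / 2 : ℝ) ^ j • Kj j)) :=
        (Finset.range N).finite_toSet.isClosed_biUnion fun j _ =>
          ((hKc j).smul _).isClosed
      have hynot : y ∉ ⋃ j ∈ Finset.range N, ((1 / 2 : ℝ) ^ j • Kj j) := by
        intro hcon
        obtain ⟨j, _, hj⟩ := mem_iUnion₂.mp hcon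
        exact hy (Or.inr (mem_iUnion.mpr ⟨j, hj⟩))
      filter_upwards [hcl.isOpen_compl.mem_nhds hynot, Metric.ball_mem_nhds y hpos] with z hz1 hz2
      rintro (hz | hz)
      · rw [mem_singleton_iff.mp hz, Metric.mem_ball, dist_zero_left] at hz2
        linarith
      · obtain ⟨j, hj⟩ := mem_iUnion.mp hz
        rcases lt_or_ge j N with hjN | hjN
        · exact hz1 (mem_iUnion₂.mpr ⟨j, Finset.mem_coe.mpr (Finset.mem_range.mpr hjN), hj⟩)
        · obtain ⟨w, hw, rfl⟩ := hj
          have h1 : ‖(1 / 2 : ℝ) ^ j • w‖ ≤ (1 / 2) ^ j := by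
            rw [norm_smul, Real.norm_of_nonneg (by positivity)]
            have := hKb j w hw
            have h2 : (0 : ℝ) ≤ (1 / 2) ^ j := by positivity
            nlinarith
          have h2 : ((1 : ℝ) / 2) ^ j ≤ (1 / 2) ^ N :=
            pow_le_pow_of_le_one (by norm_num) (by norm_num) hjN
          rw [Metric.mem_ball, dist_eq_norm] at hz2
          have h3 := norm_sub_norm_le y ((1 / 2 : ℝ) ^ j • w)
          rw [norm_sub_rev] at h3
          simp only at hz2
          linarith
    refine ⟨?_, hKclosed.isComplete⟩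
    rw [Metric.totallyBounded_iff]
    intro ε hε
    obtain ⟨N, hN⟩ := exists_pow_lt_of_lt_one hε (by norm_num : (1 / 2 : ℝ) < 1)
    have hc : IsCompact (⋃ j ∈ Finset.range N, ((1 / 2 : ℝ) ^ j • Kj j)) :=
      (Finset.range N).isCompact_biUnion fun j _ => (hKc j).smul _
    obtain ⟨s, hs, hcov⟩ := Metric.totallyBounded_iff.mp hc.totallyBounded ε hε
    refine ⟨insert 0 s, hs.insert 0, ?_⟩
    rintro z (hz | hz)
    · rw [mem_singleton_iff.mp hz]
      exact mem_iUnion₂.mpr ⟨0, mem_insert _ _, Metric.mem_ball_self hε⟩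
    · obtain ⟨j, hj⟩ := mem_iUnion.mp hz
      rcases lt_or_ge j N with hjN | hjN
      · obtain ⟨y, hy, hzy⟩ := mem_iUnion₂.mp (hcov (mem_iUnion₂.mpr
          ⟨j, Finset.mem_range.mpr hjN, hj⟩))
        exact mem_iUnion₂.mpr ⟨y, mem_insert_of_mem _ hy, hzy⟩
      · obtain ⟨w, hw, rfl⟩ := hj
        refine mem_iUnion₂.mpr ⟨0, mem_insert _ _, ?_⟩
        rw [mem_ball_zero_iff, norm_smul, Real.norm_of_nonneg (by positivity)]
        have h1 := hKb j w hw
        have h2 : (0 : ℝ) ≤ (1 / 2) ^ j := by positivity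
        have h3 : ((1 : ℝ) / 2) ^ j ≤ (1 / 2) ^ N :=
          pow_le_pow_of_le_one (by norm_num) (by norm_num) hjN
        nlinarith
  -- the weight
  set w : X → ENNReal := fun x => 1 + ∑' j : ℕ, (t j).indicator (fun _ => (2 : ENNReal) ^ (j + 1)) x
    with hw
  have hwint : ∫⁻ x, w x ∂ν ≤ ν univ + 4 := by
    rw [hw, lintegral_add_left measurable_const, lintegral_one,
      lintegral_tsum fun j => (measurable_const.indicator (htm j)).aemeasurable]
    gcongr
    calc ∑' j : ℕ, ∫⁻ x, (t j).indicator (fun _ => (2 : ENNReal) ^ (j + 1)) x ∂ν ≤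
        ∑' j : ℕ, 2 * (1 / 2 : ENNReal) ^ j := by
          apply ENNReal.tsum_le_tsum
          intro j
          rw [lintegral_indicator_const (htm j)]
          calc (2 : ENNReal) ^ (j + 1) * ν (t j) ≤ 2 ^ (j + 1) * ENNReal.ofReal ((1 / 4) ^ j) := by
                gcongr
                exact htν j
            _ = ENNReal.ofReal (2 ^ (j + 1) * (1 / 4) ^ j) := by
                rw [ENNReal.ofReal_mul (by positivity)]
                congr 1
                rw [ENNReal.ofReal_pow (by norm_num)]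
                simp
            _ = ENNReal.ofReal (2 * (1 / 2) ^ j) := by
                congr 1
                rw [pow_succ, mul_right_comm, ← mul_pow]
                norm_num
                ring
            _ = 2 * (1 / 2 : ENNReal) ^ j := by
                rw [ENNReal.ofReal_mul (by norm_num), ENNReal.ofReal_pow (by norm_num)]
                congr 1
                · simp
                · congr 1
                  rw [ENNReal.ofReal_div_of_pos (by norm_num)]
                  simp
      _ = 4 := by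
          rw [ENNReal.tsum_mul_left, ENNReal.tsum_geometric]
          rw [show (1 : ENNReal) - 1 / 2 = 2⁻¹ by
            rw [one_div]; exact ENNReal.one_sub_inv_two]
          rw [inv_inv]
          norm_num
  refine ⟨K, (ν univ + 4).toReal, hKcomp, ?_, fun T ε hε hT => ?_⟩
  · apply ENNReal.toReal_pos
    · simp
    · exact ENNReal.add_ne_top.mpr ⟨measure_ne_top _ _, by norm_num⟩
  · have hpt : ∀ x, ENNReal.ofReal ‖f x - T (f x)‖ ≤ ENNReal.ofReal ε * w x := by
      intro x
      by_cases hx : ∃ j, x ∉ t j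
      · classical
        set m := Nat.find hx with hm
        have hxm : x ∉ t m := Nat.find_spec hx
        have hmem : (1 / 2 : ℝ) ^ m • f x ∈ K :=
          Or.inr (mem_iUnion.mpr ⟨m, f x, subset_closure ⟨x, hxm, rfl⟩, rfl⟩)
        have h1 := hT _ hmem
        rw [map_smul, ← smul_sub, norm_smul, Real.norm_of_nonneg (by positivity)] at h1
        have h2 : ‖f x - T (f x)‖ ≤ ε * 2 ^ m := by
          rw [norm_sub_rev]
          have h3 : ((1 : ℝ) / 2) ^ m * 2 ^ m = 1 := by rw [← mul_pow]; norm_num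
          have h4 : (0 : ℝ) < 2 ^ m := by positivity
          calc ‖T (f x) - f x‖ = (((1 : ℝ) / 2) ^ m * 2 ^ m) * ‖T (f x) - f x‖ := by
                rw [h3, one_mul]
            _ = ((1 / 2) ^ m * ‖T (f x) - f x‖) * 2 ^ m := by ring
            _ ≤ _ := mul_le_mul_of_nonneg_right h1 h4.le
        have h5 : ENNReal.ofReal (2 ^ m) ≤ w x := by
          rcases Nat.eq_zero_or_pos m with h0 | h0
          · rw [h0, hw]
            simp
          · have h6 : x ∈ t (m - 1) := by
              by_contra hcon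
              have := Nat.find_min' hx hcon
              omega
            have h7 : (t (m - 1)).indicator (fun _ => (2 : ENNReal) ^ (m - 1 + 1)) x ≤
                ∑' j : ℕ, (t j).indicator (fun _ => (2 : ENNReal) ^ (j + 1)) x :=
              ENNReal.le_tsum (m - 1)
            rw [indicator_of_mem h6, Nat.sub_add_cancel h0] at h7
            rw [ENNReal.ofReal_pow (by norm_num)]
            simp only [ENNReal.ofReal_ofNat]
            exact h7.trans le_add_self
        calc ENNReal.ofReal ‖f x - T (f x)‖ ≤ ENNReal.ofReal (ε * 2 ^ m) :=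
              ENNReal.ofReal_le_ofReal h2
          _ = ENNReal.ofReal ε * ENNReal.ofReal (2 ^ m) := ENNReal.ofReal_mul hε.le
          _ ≤ _ := by gcongr
      · push Not at hx
        have : w x = ⊤ := by
          rw [hw]
          simp only
          rw [ENNReal.add_eq_top]
          right
          rw [← top_le_iff]
          calc (⊤ : ENNReal) = ∑' _ : ℕ, (1 : ENNReal) := by
                rw [ENNReal.tsum_const_eq_top_of_ne_zero one_ne_zero]
            _ ≤ _ := by
                apply ENNReal.tsum_le_tsum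
                intro j
                rw [indicator_of_mem (hx j)]
                exact one_le_pow₀ (by norm_num)
        rw [this, ENNReal.mul_top (by simpa using hε)]
        exact le_top
    calc ∫⁻ x, ENNReal.ofReal ‖f x - T (f x)‖ ∂ν ≤ ∫⁻ x, ENNReal.ofReal ε * w x ∂ν :=
          lintegral_mono hpt
      _ = ENNReal.ofReal ε * ∫⁻ x, w x ∂ν := lintegral_const_mul' _ _ ENNReal.ofReal_ne_top
      _ ≤ ENNReal.ofReal ε * (ν univ + 4) := by gcongr
      _ = _ := by
          rw [ENNReal.ofReal_mul hε.le, ENNReal.ofReal_toReal]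
          exact ENNReal.add_ne_top.mpr ⟨measure_ne_top _ _, by norm_num⟩

lemma vector_zero [CompactSpace X] [CompleteSpace E] (hX : Convex ℝ X) (hE : AP ℝ E)
    (Λ : C(X, E) →L[ℝ] ℝ)
    (hL : ∀ a : C(X, E), IsAffine (fun x => a x) → Λ a = 0) {f : X → E} (hf : IsAffine f)
    {h : ℕ → C(X, E)} (hh : ∀ n x, ‖h n x‖ ≤ 1)
    (hlim : ∀ x, Tendsto (fun n => h n x) atTop (𝓝 (f x))) :
    Tendsto (fun n => Λ (h n)) atTop (𝓝 0) := by
  let _ : MeasurableSpace X := borel X
  have _ : BorelSpace X := ⟨rfl⟩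
  obtain ⟨ν, hν1, hν2, hdom⟩ := exists_dominating Λ
  have hfn : ∀ x, ‖f x‖ ≤ 1 := fun x =>
    le_of_tendsto ((continuous_norm.tendsto _).comp (hlim x)) (Eventually.of_forall fun n => hh n x)
  obtain ⟨K, W, hK, hW, hKW⟩ := exists_compact ν hfn hlim
  rw [Metric.tendsto_atTop]
  intro ε hε
  obtain ⟨T, hTfin, hTK⟩ := hE K hK (ε / (4 * W)) (by positivity)
  have hint := hKW T (ε / (4 * W)) (by positivity) fun y hy => (hTK y hy).le
  have heq : ε / (4 * W) * W = ε / 4 := by field_simp
  rw [heq] at hint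
  -- the composed maps
  let Th : ℕ → C(X, E) := fun n => ⟨fun x => T (h n x), T.continuous.comp (h n).continuous⟩
  have hA : Tendsto (fun n => Λ (Th n)) atTop (𝓝 0) := by
    have := hTfin
    set R := LinearMap.range T.toLinearMap with hR
    let b := Module.finBasis ℝ R
    let φ : Fin (Module.finrank ℝ R) → (E →L[ℝ] ℝ) := fun j =>
      (LinearMap.toContinuousLinearMap (b.coord j)).comp
        (T.codRestrict R (fun x => LinearMap.mem_range_self _ x))
    have hφ : ∀ y, T y = ∑ j, φ j y • (b j : E) := by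
      intro y
      have h1 := congrArg (Subtype.val) (b.sum_repr (T.codRestrict R
        (fun x => LinearMap.mem_range_self _ x) y))
      rw [Submodule.coe_sum] at h1
      rw [show T y = ((T.codRestrict R (fun x => LinearMap.mem_range_self _ x) y : R) : E)
        from rfl, ← h1]
      rfl
    let S : E → (C(X, ℝ) →L[ℝ] C(X, E)) := fun e =>
      (ContinuousLinearMap.toSpanSingleton ℝ e).compLeftContinuous ℝ X
    let u : Fin (Module.finrank ℝ R) → ℕ → C(X, ℝ) := fun j n =>
      ⟨fun x => φ j (h n x), (φ j).continuous.comp (h n).continuous⟩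
    have hsum : ∀ n, Λ (Th n) = ∑ j, (Λ.comp (S (b j : E))) (u j n) := by
      intro n
      have h1 : Th n = ∑ j, S (b j : E) (u j n) := by
        ext x
        rw [ContinuousMap.sum_apply]
        exact hφ (h n x)
      rw [h1, map_sum]
      rfl
    have hj : ∀ j, Tendsto (fun n => (Λ.comp (S (b j : E))) (u j n)) atTop (𝓝 0) := by
      intro j
      refine scalar_zero hX (Λ.comp (S (b j : E))) ?_ (f := fun x => φ j (f x)) ?_
        (M := ‖φ j‖) ?_ ?_
      · intro a ha
        apply hL
        intro x y z t h0 h1 hz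
        change a z • (b j : E) = t • (a x • (b j : E)) + (1 - t) • (a y • (b j : E))
        have := ha x y z t h0 h1 hz
        simp only at this
        rw [this, add_smul, smul_smul, smul_smul]
        rfl
      · intro x y z t h0 h1 hz
        change φ j (f z) = t • φ j (f x) + (1 - t) • φ j (f y)
        rw [hf x y z t h0 h1 hz, map_add, map_smul, map_smul]
      · intro n x
        have := (φ j).le_opNorm (h n x)
        rw [Real.norm_eq_abs] at this
        have h1 := hh n x
        have h2 := norm_nonneg (φ j)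
        calc |u j n x| ≤ ‖φ j‖ * ‖h n x‖ := this
          _ ≤ ‖φ j‖ := by nlinarith
      · intro x
        exact ((φ j).continuous.tendsto _).comp (hlim x)
    simp only [hsum]
    have := tendsto_finsetSum Finset.univ (fun j _ => hj j)
    simpa using this
  -- approximation
  have hcontn : ∀ n, Continuous fun x : X => ‖h n x - T (h n x)‖ := fun n =>
    ((h n).continuous.sub (T.continuous.comp (h n).continuous)).norm
  have hptk : ∀ x, Tendsto (fun n => ‖h n x - T (h n x)‖) atTop (𝓝 ‖f x - T (f x)‖) :=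
    fun x => ((hlim x).sub ((T.continuous.tendsto _).comp (hlim x))).norm
  have hbd : ∀ (y : E), ‖y‖ ≤ 1 → ‖y - T y‖ ≤ 1 + ‖T‖ := by
    intro y hy
    have h1 := norm_sub_le y (T y)
    have h2 := T.le_opNorm y
    have h3 : ‖T‖ * ‖y‖ ≤ ‖T‖ * 1 := mul_le_mul_of_nonneg_left hy (norm_nonneg _)
    linarith
  have hmeas : Measurable fun x : X => ‖f x - T (f x)‖ :=
    measurable_of_tendsto_metrizable (fun n => (hcontn n).measurable)
      (tendsto_pi_nhds.mpr hptk)
  have hB : Tendsto (fun n => ∫ x, ‖h n x - T (h n x)‖ ∂ν) atTop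
      (𝓝 (∫ x, ‖f x - T (f x)‖ ∂ν)) := by
    apply tendsto_integral_of_dominated_convergence (fun _ => 1 + ‖T‖)
    · exact fun n => (hcontn n).measurable.aestronglyMeasurable
    · exact integrable_const _
    · exact fun n => Eventually.of_forall fun x => by
        rw [norm_norm]; exact hbd _ (hh n x)
    · exact Eventually.of_forall hptk
  have hC : ∫ x, ‖f x - T (f x)‖ ∂ν ≤ ε / 4 := by
    rw [integral_eq_lintegral_of_nonneg_ae (Eventually.of_forall fun _ => norm_nonneg _)
      hmeas.aestronglyMeasurable]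
    exact ENNReal.toReal_le_of_le_ofReal (by positivity) hint
  have e1 := hB.eventually_lt_const (show _ < ε / 2 by linarith)
  have e2 : ∀ᶠ n in atTop, |Λ (Th n)| < ε / 2 := by
    have := hA.abs
    rw [abs_zero] at this
    exact this.eventually_lt_const (by positivity)
  obtain ⟨N, hN⟩ := (e1.and e2).exists_forall_of_atTop
  refine ⟨N, fun n hn => ?_⟩
  obtain ⟨h1, h2⟩ := hN n hn
  rw [Real.dist_eq, sub_zero]
  have h3 := hdom (h n - Th n)
  have h4 : ∫ x, ‖(h n - Th n) x‖ ∂ν = ∫ x, ‖h n x - T (h n x)‖ ∂ν := rfl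
  rw [h4, map_sub] at h3
  have h5 : |Λ (h n)| ≤ |Λ (h n) - Λ (Th n)| + |Λ (Th n)| := by
    have := abs_add_le (Λ (h n) - Λ (Th n)) (Λ (Th n))
    rwa [sub_add_cancel] at this
  linarith

/-- the Mazur step -/
lemma mazur_step [CompactSpace X] [CompleteSpace E] (hX : Convex ℝ X) (hE : AP ℝ E) {f : X → E}
    (hf : IsAffine f) {h : ℕ → C(X, E)} (hh : ∀ n x, ‖h n x‖ ≤ 1)
    (hlim : ∀ x, Tendsto (fun n => h n x) atTop (𝓝 (f x))) (N : ℕ) :
    ∃ s ∈ convexHull ℝ (h '' {n | N ≤ n}), ∃ a : C(X, E), IsAffine (fun x => a x) ∧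
      ‖s - a‖ < 1 / ((N : ℝ) + 1) := by
  by_contra hcon
  push Not at hcon
  set S : Set C(X, E) := convexHull ℝ (h '' {n | N ≤ n}) with hS
  set D : Set C(X, E) := {g | ∃ s ∈ S, ∃ a : C(X, E), IsAffine (fun x => a x) ∧ g = s - a} with hD
  have hDc : Convex ℝ D := by
    rintro g ⟨s, hs, a, ha, rfl⟩ g' ⟨s', hs', a', ha', rfl⟩ p q hp hq hpq
    refine ⟨p • s + q • s', (convex_convexHull ℝ _) hs hs' hp hq hpq, p • a + q • a', ?_, ?_⟩
    · intro x y z t h0 h1 hz
      change p • a z + q • a' z = t • (p • a x + q • a' x) + (1 - t) • (p • a y + q • a' y)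
      have e1 := ha x y z t h0 h1 hz
      have e2 := ha' x y z t h0 h1 hz
      simp only at e1 e2
      rw [e1, e2]
      module
    · module
  have h0 : (0 : C(X, E)) ∉ closure D := by
    intro h0
    obtain ⟨g, ⟨s, hs, a, ha, rfl⟩, hg⟩ := Metric.mem_closure_iff.mp h0
      (1 / ((N : ℝ) + 1)) (by positivity)
    rw [dist_comm, dist_zero_right] at hg
    exact absurd hg (not_lt.mpr (hcon s hs a ha))
  obtain ⟨Λ, u, hu, hΛ⟩ := geometric_hahn_banach_point_closed hDc.closure isClosed_closure h0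
  rw [map_zero] at hu
  have hmem : ∀ n, N ≤ n → ∀ a : C(X, E), IsAffine (fun x => a x) → u < Λ (h n) - Λ a := by
    intro n hn a ha
    rw [← map_sub]
    exact hΛ _ (subset_closure ⟨h n, subset_convexHull ℝ _ ⟨n, hn, rfl⟩, a, ha, rfl⟩)
  have hzero : ∀ a : C(X, E), IsAffine (fun x => a x) → Λ a = 0 := by
    intro a ha
    by_contra hne
    have := hmem N le_rfl ((Λ (h N) / Λ a) • a) (by
      intro x y z t h0 h1 hz
      change (Λ (h N) / Λ a) • a z = t • ((Λ (h N) / Λ a) • a x)
        + (1 - t) • ((Λ (h N) / Λ a) • a y)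
      have e1 := ha x y z t h0 h1 hz
      simp only at e1
      rw [e1]
      module)
    rw [map_smul, smul_eq_mul, div_mul_cancel₀ _ hne, sub_self] at this
    linarith
  have hlimΛ := vector_zero hX hE Λ hzero hf hh hlim
  have h1 : u ≤ 0 := by
    apply ge_of_tendsto hlimΛ
    filter_upwards [eventually_ge_atTop N] with n hn
    have := hmem n hn 0 (by intro x y z t _ _ _; simp)
    rw [map_zero, sub_zero] at this
    exact this.le
  linarith


/-- affine maps of the first Baire class are bounded -/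
lemma bounded_of_affine [CompactSpace X] (hX : Convex ℝ X) {f : X → E} (hf : IsAffine f)
    {g : ℕ → X → E} (hg : ∀ n, Continuous (g n))
    (hlim : ∀ x, Tendsto (fun n => g n x) atTop (𝓝 (f x))) : ∃ M : ℝ, 0 < M ∧ ∀ x, ‖f x‖ ≤ M := by
  rcases isEmpty_or_nonempty X with hemp | hne
  · exact ⟨1, one_pos, fun x => hemp.elim x⟩
  -- Baire
  have hcl : ∀ m : ℕ, IsClosed {x : X | ∀ n, ‖g n x‖ ≤ m} := by
    intro m
    rw [ofPred_forall]
    exact isClosed_iInter fun n => isClosed_le (hg n).norm continuous_const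
  have hcov : ⋃ m : ℕ, {x : X | ∀ n, ‖g n x‖ ≤ m} = univ := by
    rw [eq_univ_iff_forall]
    intro x
    obtain ⟨B, hB⟩ := (Metric.isBounded_range_of_tendsto _ (hlim x)).exists_norm_le
    obtain ⟨m, hm⟩ := exists_nat_ge B
    exact mem_iUnion.mpr ⟨m, fun n => (hB _ (mem_range_self n)).trans hm⟩
  obtain ⟨m, x₀, hx₀⟩ := nonempty_interior_of_iUnion_of_closed hcl hcov
  set U := interior {x : X | ∀ n, ‖g n x‖ ≤ m} with hU
  have hUb : ∀ x ∈ U, ‖f x‖ ≤ m := fun x hx =>
    le_of_tendsto ((continuous_norm.tendsto _).comp (hlim x))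
      (Eventually.of_forall fun n => interior_subset hx n)
  -- the segments
  let c : (Icc (0 : ℝ) 1) × X → X := fun q => ⟨(q.1 : ℝ) • (q.2 : V) + (1 - (q.1 : ℝ)) • (x₀ : V),
    hX q.2.2 x₀.2 q.1.2.1 (by linarith [q.1.2.2]) (by ring)⟩
  have hc : Continuous c := by
    apply Continuous.subtype_mk
    fun_prop
  have hopen : IsOpen (c ⁻¹' U) := isOpen_interior.preimage hc
  obtain ⟨u, v, hu, -, h0u, hv, huv⟩ := generalized_tube_lemma
    (isCompact_singleton (x := (⟨0, by simp⟩ : Icc (0 : ℝ) 1))) (isCompact_univ (X := X)) hopen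
    (by
      rintro ⟨s, x⟩ ⟨hs, -⟩
      have hs' : s = ⟨0, by simp⟩ := hs
      subst hs'
      change c (⟨0, by simp⟩, x) ∈ U
      have : c (⟨0, by simp⟩, x) = x₀ := by
        apply Subtype.ext
        simp [c]
      rw [this]
      exact hx₀)
  have hnhds : u ∈ 𝓝 (⟨0, by simp⟩ : Icc (0 : ℝ) 1) := hu.mem_nhds (h0u rfl)
  obtain ⟨δ, hδ, hδu⟩ := Metric.mem_nhds_iff.mp hnhds
  set s : ℝ := min (δ / 2) 1 with hs
  have hs0 : 0 < s := lt_min (by positivity) one_pos
  have hs1 : s ≤ 1 := min_le_right _ _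
  have hsu : (⟨s, hs0.le, hs1⟩ : Icc (0 : ℝ) 1) ∈ u := by
    apply hδu
    rw [Metric.mem_ball, Subtype.dist_eq, Real.dist_eq, sub_zero, abs_of_pos hs0]
    exact lt_of_le_of_lt (min_le_left _ _) (by linarith)
  refine ⟨(m + m) / s + 1, by positivity, fun x => ?_⟩
  have h1 : c (⟨s, hs0.le, hs1⟩, x) ∈ U := huv ⟨hsu, hv (mem_univ x)⟩
  have h2 := hUb _ h1
  have h3 := hUb _ hx₀
  have h4 := hf x x₀ (c (⟨s, hs0.le, hs1⟩, x)) s hs0.le hs1 rfl
  have h5 : s • f x = f (c (⟨s, hs0.le, hs1⟩, x)) - (1 - s) • f x₀ := by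
    rw [h4]; abel
  have h6 : s * ‖f x‖ ≤ m + m := by
    calc s * ‖f x‖ = ‖s • f x‖ := by rw [norm_smul, Real.norm_of_nonneg hs0.le]
      _ ≤ ‖f (c (⟨s, hs0.le, hs1⟩, x))‖ + ‖(1 - s) • f x₀‖ := by
          rw [h5]; exact norm_sub_le _ _
      _ ≤ m + m := by
          apply add_le_add h2
          rw [norm_smul, Real.norm_of_nonneg (by linarith)]
          have := norm_nonneg (f x₀)
          nlinarith
  have h7 : ‖f x‖ ≤ (m + m) / s := by
    rw [le_div_iff₀ hs0, mul_comm]; exact h6
  linarith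

/-- the radial truncation to the unit ball -/
lemma truncate {g : ℕ → X → E} (hg : ∀ n, Continuous (g n)) {f : X → E} (hf : ∀ x, ‖f x‖ ≤ 1)
    (hlim : ∀ x, Tendsto (fun n => g n x) atTop (𝓝 (f x))) :
    ∃ h : ℕ → C(X, E), (∀ n x, ‖h n x‖ ≤ 1) ∧
      ∀ x, Tendsto (fun n => h n x) atTop (𝓝 (f x)) := by
  refine ⟨fun n => ⟨fun x => (max 1 ‖g n x‖)⁻¹ • g n x, ?_⟩, ?_, ?_⟩
  · apply Continuous.smul _ (hg n)
    apply Continuous.inv₀
    · exact continuous_const.max (hg n).norm
    · intro x
      have : (1 : ℝ) ≤ max 1 ‖g n x‖ := le_max_left _ _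
      positivity
  · intro n x
    simp only [ContinuousMap.coe_mk]
    have h1 : (0 : ℝ) < max 1 ‖g n x‖ := lt_of_lt_of_le one_pos (le_max_left _ _)
    rw [norm_smul, norm_inv, Real.norm_of_nonneg h1.le, inv_mul_le_iff₀ h1, mul_one]
    exact le_max_right _ _
  · intro x
    simp only [ContinuousMap.coe_mk]
    have h1 : Tendsto (fun n => (max 1 ‖g n x‖)⁻¹) atTop (𝓝 (max 1 ‖f x‖)⁻¹) := by
      apply Tendsto.inv₀
      · exact tendsto_const_nhds.max (hlim x).norm
      · have : (1 : ℝ) ≤ max 1 ‖f x‖ := le_max_left _ _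
        positivity
    have h2 := h1.smul (hlim x)
    rwa [max_eq_left (hf x), inv_one, one_smul] at h2

theorem main_ball [CompleteSpace E] (hXc : IsCompact X) (hX : Convex ℝ X) (hE : AP ℝ E)
    {f : X → E} (hf : IsAffine f) {g : ℕ → X → E} (hg : ∀ n, Continuous (g n))
    (hlim' : ∀ x, Tendsto (fun n => g n x) atTop (𝓝 (f x))) (hf1 : ∀ x, ‖f x‖ ≤ 1) :
    f ∈ A1 X E := by
  have : CompactSpace X := isCompact_iff_compactSpace.mp hXc
  obtain ⟨h, hh, hlim⟩ := truncate hg hf1 hlim'
  choose s hs a ha hsa using mazur_step hX hE hf hh hlim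
  have hsax : ∀ N x, ‖s N x - a N x‖ < 1 / ((N : ℝ) + 1) := fun N x =>
    lt_of_le_of_lt (ContinuousMap.norm_coe_le_norm (s N - a N) x) (hsa N)
  have hslim : ∀ x, Tendsto (fun N => s N x) atTop (𝓝 (f x)) := by
    intro x
    rw [Metric.tendsto_atTop]
    intro ε hε
    obtain ⟨N₀, hN₀⟩ := Metric.tendsto_atTop.mp (hlim x) (ε / 2) (by positivity)
    refine ⟨N₀, fun N hN => ?_⟩
    have hsub : convexHull ℝ (h '' {n | N ≤ n}) ⊆ {c : C(X, E) | c x ∈ Metric.ball (f x) ε} := by
      apply convexHull_min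
      · rintro _ ⟨n, hn, rfl⟩
        have := hN₀ n (hN.trans hn)
        change dist (h n x) (f x) < ε
        exact lt_trans this (by linarith)
      · intro c hc c' hc' p q hp hq hpq
        exact (convex_ball (f x) ε) hc hc' hp hq hpq
    exact hsub (hs N)
  refine ⟨fun N x => a N x, fun N => (a N).continuous, ha, fun x => ?_⟩
  have hinv : Tendsto (fun N : ℕ => 1 / ((N : ℝ) + 1)) atTop (𝓝 0) :=
    tendsto_one_div_add_atTop_nhds_zero_nat
  have h1 : Tendsto (fun N => s N x - a N x) atTop (𝓝 0) :=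
    squeeze_zero_norm (fun N => (hsax N x).le) hinv
  have h2 := (hslim x).sub h1
  simpa using h2

end Main

/-- **Theorem.** Let `X` be a compact convex subset of a Hausdorff locally convex space and `E` a
real or complex Banach space with the approximation property.  Then every affine map
`f : X → E` of the first Baire class is a pointwise limit of continuous affine maps. -/
theorem result {V : Type*} [AddCommGroup V] [Module ℝ V] [TopologicalSpace V]
    [IsTopologicalAddGroup V] [ContinuousSMul ℝ V] [LocallyConvexSpace ℝ V] [T2Space V]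
    (X : Set V) (hXc : IsCompact X) (hX : Convex ℝ X)
    {𝕜 : Type*} [RCLike 𝕜] {E : Type*} [NormedAddCommGroup E] [NormedSpace 𝕜 E]
    [NormedSpace ℝ E] [IsScalarTower ℝ 𝕜 E] [CompleteSpace E] (hE : AP 𝕜 E) (f : X → E)
    (hf : IsAffine f) (hfC : f ∈ C1 X E) : f ∈ A1 X E := by
  have : CompactSpace X := isCompact_iff_compactSpace.mp hXc
  have hE' : AP ℝ E := by
    intro K hK ε hε
    obtain ⟨T, hT1, hT3⟩ := hE K hK ε hε
    refine ⟨T.restrictScalars ℝ, ?_, hT3⟩
    have h1 : Module.Finite ℝ (LinearMap.range T.toLinearMap) := Module.Finite.trans 𝕜 _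
    exact h1
  obtain ⟨g, hg, hlim⟩ := hfC
  obtain ⟨M, hM, hfM⟩ := bounded_of_affine hX hf hg hlim
  have haff : ∀ (c : ℝ) (u : X → E), IsAffine u → IsAffine fun x => c • u x := by
    intro c u hu x y z t h0 h1 hz
    simp only
    rw [hu x y z t h0 h1 hz]
    module
  have h1 := main_ball hXc hX hE' (f := fun x => M⁻¹ • f x) (haff _ _ hf)
    (g := fun n x => M⁻¹ • g n x) (fun n => (hg n).const_smul _)
    (fun x => (hlim x).const_smul _) (fun x => by
      rw [norm_smul, norm_inv, Real.norm_of_nonneg hM.le, inv_mul_le_iff₀ hM, mul_one]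
      exact hfM x)
  obtain ⟨a, ha1, ha2, ha3⟩ := h1
  refine ⟨fun n x => M • a n x, fun n => (ha1 n).const_smul _, fun n => haff _ _ (ha2 n),
    fun x => ?_⟩
  have h2 := (ha3 x).const_smul M
  rwa [smul_smul, mul_inv_cancel₀ hM.ne', one_smul] at h2

end Pool.Agent.Results.MP_04557e_an.APSuffices
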